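import Pool.Agent.Helper23.MV.StP
import Pool.Agent.Helper1.GK.M_SHA

/-!
# Project MV (MP_b454d1_nt), module SHC: sharp windows, complex version.
-/

set_option autoImplicit false

namespace Pool.Agent.Helper37.MV

open Finset ArithmeticFunction MeasureTheory
open Pool.Agent.Helper23.MV
open Pool.Agent.Helper15.AB (IsW)

private theorem mwt_abs_shc (o : Option (PCh × ℝ)) (c : PCh) (ho : OKb o 1) (m : ℕ)
    (hm : 1 ≤ m) : |mwt o c m| ≤ 1 := by
  unfold mwt
  rcases o with _ | ⟨e, δ⟩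
  · simp only [sub_zero]
    split_ifs <;> simp
  · have h2 := ho e δ rfl
    have h3 : (0 : ℝ) ≤ (m : ℝ) ^ (-δ) := by positivity
    have h4 : (m : ℝ) ^ (-δ) ≤ 1 :=
      Real.rpow_le_one_of_one_le_of_nonpos (by exact_mod_cast hm) (by linarith [h2.2.1])
    simp only
    split_ifs <;> rw [abs_le] <;> constructor <;> linarith

private theorem gm_norm_shc (w : ℝ → ℝ) (hw : IsW w) (o : Option (PCh × ℝ)) (c : PCh)
    (ho : OKb o 1) (X m : ℕ) (hX : 2 ≤ X) (hm : 1 ≤ m) (hm2 : m ≤ 3 * X) :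
    ‖gm o c w X m‖ ≤ 6 * Real.log X := by
  have hX' : (2 : ℝ) ≤ X := by exact_mod_cast hX
  have hL : Real.log 2 ≤ Real.log X := Real.log_le_log (by norm_num) hX'
  have hl2 := Real.log_two_gt_d9
  have hw1 : ‖((w (Real.log (m / X)) : ℝ) : ℂ)‖ ≤ 1 := by
    rw [Complex.norm_real, Real.norm_eq_abs, abs_of_nonneg (hw.nonneg _)]
    exact hw.le_one _
  have hm' : (1 : ℝ) ≤ m := by exact_mod_cast hm
  have hΛ : (Λ m : ℝ) ≤ Real.log 4 + Real.log X := by
    refine le_trans vonMangoldt_le_log ?_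
    rw [← Real.log_mul (by norm_num) (by positivity)]
    apply Real.log_le_log (by linarith)
    have : (m : ℝ) ≤ 3 * X := by exact_mod_cast hm2
    linarith
  have h4 : Real.log 4 = 2 * Real.log 2 := by
    rw [show (4 : ℝ) = 2 ^ 2 by norm_num, Real.log_pow]; norm_num
  have hev : ‖c.ev m‖ ≤ 1 := DirichletCharacter.norm_le_one _ _
  have h5 : ‖((Λ m : ℝ) : ℂ) * c.ev m‖ ≤ Real.log 4 + Real.log X := by
    rw [norm_mul, Complex.norm_real, Real.norm_eq_abs, abs_of_nonneg vonMangoldt_nonneg]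
    calc Λ m * ‖c.ev m‖ ≤ Λ m * 1 := mul_le_mul_of_nonneg_left hev vonMangoldt_nonneg
      _ ≤ _ := by rw [mul_one]; exact hΛ
  have h6 : ‖((mwt o c m : ℝ) : ℂ)‖ ≤ 1 := by
    rw [Complex.norm_real, Real.norm_eq_abs]; exact mwt_abs_shc o c ho m hm
  unfold gm
  rw [norm_mul]
  calc _ ≤ 1 * (Real.log 4 + Real.log X + 1) := by
        apply mul_le_mul hw1 _ (norm_nonneg _) zero_le_one
        exact (norm_sub_le _ _).trans (by linarith)
    _ ≤ 6 * Real.log X := by
        rw [h4]; linarith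

private theorem Wg_cont_shc (o : Option (PCh × ℝ)) (c : PCh) (w : ℝ → ℝ) (X : ℕ) (T : ℝ) :
    Continuous (fun u => Wg o c w X T u) := by
  unfold Wg
  fun_prop

/-- SHC -/
theorem hShc : StShc := by
  intro w hw
  obtain ⟨C0, hC0, hS⟩ := Pool.Agent.Helper1.GK.hSHA
  refine ⟨12 * C0 + 1, by linarith, ?_⟩
  intro X H o c T x hX hH hT hTX ho hx1 hx2
  have hX' : (2 : ℝ) ≤ X := by exact_mod_cast hX
  have hL0 : 0 ≤ Real.log X := Real.log_nonneg (by linarith)
  have hx0 : 0 < x := by linarith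
  have hH0 : (0 : ℝ) ≤ H := Nat.cast_nonneg _
  have hlog : Real.log x ≤ Real.log (x + H) := Real.log_le_log hx0 (by linarith)
  have hcont := Wg_cont_shc o c w X T
  have hnormint : IntervalIntegrable (fun u => ‖Wg o c w X T u‖) volume (Real.log x)
      (Real.log (x + H)) := hcont.norm.intervalIntegrable _ _
  -- general statement for a real linear functional
  have key : ∀ (f : ℂ → ℝ), (∀ z, |f z| ≤ ‖z‖) → (∀ a b, f (a + b) = f a + f b) → f 0 = 0 →
      (∀ (z : ℂ) (r : ℝ), f (z * (r : ℂ)) = f z * r) →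
      |f (∑ m ∈ (Icc 1 (3 * X)).filter (fun m : ℕ => x < (m : ℝ) ∧ (m : ℝ) ≤ x + H),
        gm o c w X m / m)| ≤ (∫ u in (Real.log x)..(Real.log (x + H)), ‖Wg o c w X T u‖) +
        C0 * (6 * Real.log X) / T := by
    intro f hf1 hf2 hf0 hf3
    have hsum : ∀ (s : Finset ℕ) (a : ℕ → ℂ), f (∑ m ∈ s, a m) = ∑ m ∈ s, f (a m) := by
      intro s a
      classical
      induction s using Finset.induction_on with
      | empty => simp [hf0]
      | insert i s hi ih => rw [Finset.sum_insert hi, Finset.sum_insert hi, hf2, ih]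
    have hdiv : ∀ (z : ℂ) (m : ℕ), f (z / m) = f z / m := by
      intro z m
      have : z / (m : ℂ) = z * (((m : ℝ)⁻¹ : ℝ) : ℂ) := by
        push_cast; rw [div_eq_mul_inv]
      rw [this, hf3, div_eq_mul_inv]
    set g : ℕ → ℝ := fun m => if m ∈ Icc 1 (3 * X) then f (gm o c w X m) else 0 with hg
    have hgG : ∀ n, |g n| ≤ 6 * Real.log X := by
      intro n
      simp only [hg]
      split_ifs with h
      · rw [mem_Icc] at h
        exact (hf1 _).trans (gm_norm_shc w hw o c ho X n hX h.1 h.2)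
      · simp; linarith
    have h1 := hS g X H (6 * Real.log X) T x (by omega) hH hT hTX (by linarith) hgG hx1 hx2
    have h2 : f (∑ m ∈ (Icc 1 (3 * X)).filter (fun m : ℕ => x < (m : ℝ) ∧ (m : ℝ) ≤ x + H),
        gm o c w X m / m) =
        ∑ m ∈ (Icc 1 (3 * X)).filter (fun m : ℕ => x < (m : ℝ) ∧ (m : ℝ) ≤ x + H), g m / m := by
      rw [hsum]
      apply Finset.sum_congr rfl
      intro m hm
      rw [hdiv]
      simp only [hg]
      rw [if_pos (Finset.mem_filter.mp hm).1]
    rw [h2]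
    refine h1.trans ?_
    have h3 : ∀ u : ℝ, ‖∑ m ∈ Icc 1 (3 * X), ((g m : ℝ) : ℂ) / m *
        ((T * Real.exp (-(T ^ 2 * (u - Real.log m) ^ 2 / 2)) : ℝ) : ℂ)‖ ≤ ‖Wg o c w X T u‖ := by
      intro u
      have h4 : (∑ m ∈ Icc 1 (3 * X), ((g m : ℝ) : ℂ) / m *
          ((T * Real.exp (-(T ^ 2 * (u - Real.log m) ^ 2 / 2)) : ℝ) : ℂ)) =
          ((f (Wg o c w X T u) : ℝ) : ℂ) := by
        unfold Wg
        rw [hsum]
        push_cast
        apply Finset.sum_congr rfl
        intro m hm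
        have h5 : f (gm o c w X m / m * ((T * Real.exp (-(T ^ 2 * (u - Real.log m) ^ 2 / 2)) : ℝ) : ℂ))
            = f (gm o c w X m) / m * (T * Real.exp (-(T ^ 2 * (u - Real.log m) ^ 2 / 2))) := by
          rw [hf3, hdiv]
        have h6 : g m = f (gm o c w X m) := by simp only [hg]; rw [if_pos hm]
        rw [h6]
        have h7 := congrArg (fun r : ℝ => (r : ℂ)) h5
        replace h7 : ((f (gm o c w X m / m *
            ((T * Real.exp (-(T ^ 2 * (u - Real.log m) ^ 2 / 2)) : ℝ) : ℂ)) : ℝ) : ℂ) =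
            ((f (gm o c w X m) / m *
              (T * Real.exp (-(T ^ 2 * (u - Real.log m) ^ 2 / 2))) : ℝ) : ℂ) := h7
        push_cast at h7
        rw [h7]
      rw [h4, Complex.norm_real, Real.norm_eq_abs]
      exact hf1 _
    have h8 : (∫ u in (Real.log x)..(Real.log (x + H)),
        ‖∑ m ∈ Icc 1 (3 * X), ((g m : ℝ) : ℂ) / m *
          ((T * Real.exp (-(T ^ 2 * (u - Real.log m) ^ 2 / 2)) : ℝ) : ℂ)‖) ≤
        ∫ u in (Real.log x)..(Real.log (x + H)), ‖Wg o c w X T u‖ := by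
      apply intervalIntegral.integral_mono_on hlog _ hnormint (fun u _ => h3 u)
      apply Continuous.intervalIntegrable
      fun_prop
    linarith
  have hre := key Complex.re Complex.abs_re_le_norm Complex.add_re Complex.zero_re
    (fun z r => Complex.re_mul_ofReal z r)
  have him := key Complex.im Complex.abs_im_le_norm Complex.add_im Complex.zero_im
    (fun z r => Complex.im_mul_ofReal z r)
  refine (Complex.norm_le_abs_re_add_abs_im _).trans ?_
  have hT0 : 0 < T := by linarith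
  have h9 : (12 * C0 + 1) * Real.log X / T =
      C0 * (6 * Real.log X) / T + C0 * (6 * Real.log X) / T + Real.log X / T := by
    field_simp; ring
  have h10 : 0 ≤ Real.log X / T := by positivity
  rw [h9]
  linarith

end Pool.Agent.Helper37.MV
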