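import Pool.Agent.Helper23.MV.StC

/-!
# Project MV (MP_b454d1_nt), module TWB: local densities.
-/

set_option autoImplicit false

namespace Pool.Agent.Helper37.MV

open Finset
open Pool.Agent.Helper23.MV

open Classical in
private noncomputable def nz_twb (R N : ℕ) [NeZero R] : ℕ :=
  ((Finset.univ : Finset (ZMod R)).filter
    (fun x => IsUnit x ∧ IsUnit ((N : ZMod R) - x))).card

private theorem nu_eq_nz_twb (R N : ℕ) [NeZero R] : nu R N = nz_twb R N := by
  classical
  unfold nu nz_twb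
  have hR : 1 ≤ R := Nat.one_le_iff_ne_zero.mpr (NeZero.ne R)
  have hcast : ∀ n : ℕ, ((N + (R - 1) * n : ℕ) : ZMod R) = (N : ZMod R) - (n : ZMod R) := by
    intro n
    push_cast [Nat.cast_sub hR]
    rw [ZMod.natCast_self]
    ring
  refine Finset.card_bij' (fun n _ => (n : ZMod R)) (fun x _ => x.val) ?_ ?_ ?_ ?_
  · intro n hn
    rw [Finset.mem_filter, Finset.mem_range] at hn
    rw [Finset.mem_filter]
    refine ⟨Finset.mem_univ _, (ZMod.isUnit_iff_coprime n R).mpr hn.2.1, ?_⟩
    rw [← hcast]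
    exact (ZMod.isUnit_iff_coprime _ R).mpr hn.2.2
  · intro x hx
    rw [Finset.mem_filter] at hx
    rw [Finset.mem_filter, Finset.mem_range]
    refine ⟨ZMod.val_lt x, ?_, ?_⟩
    · rw [← ZMod.isUnit_iff_coprime, ZMod.natCast_zmod_val]
      exact hx.2.1
    · rw [← ZMod.isUnit_iff_coprime, hcast, ZMod.natCast_zmod_val]
      exact hx.2.2
  · intro n hn
    rw [Finset.mem_filter, Finset.mem_range] at hn
    exact ZMod.val_cast_of_lt hn.1
  · intro x hx
    exact ZMod.natCast_zmod_val x

private theorem nz_mul_twb (m n N : ℕ) [NeZero m] [NeZero n] [NeZero (m * n)]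
    (h : Nat.Coprime m n) : nz_twb (m * n) N = nz_twb m N * nz_twb n N := by
  classical
  unfold nz_twb
  rw [← Finset.card_product]
  set e := ZMod.chineseRemainder h with he
  have hunit : ∀ x : ZMod (m * n), IsUnit x ↔ IsUnit (e x).1 ∧ IsUnit (e x).2 := by
    intro x
    rw [← Prod.isUnit_iff]
    exact (MulEquiv.isUnit_map e).symm
  have hsub : ∀ x : ZMod (m * n), (e ((N : ZMod (m * n)) - x)) =
      ((N : ZMod m) - (e x).1, (N : ZMod n) - (e x).2) := by
    intro x
    rw [map_sub, map_natCast]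
    rfl
  refine Finset.card_bij' (fun x _ => e x) (fun y _ => e.symm y) ?_ ?_ ?_ ?_
  · intro x hx
    rw [Finset.mem_filter] at hx
    rw [Finset.mem_product, Finset.mem_filter, Finset.mem_filter]
    have h1 := (hunit x).mp hx.2.1
    have h2 := (hunit _).mp hx.2.2
    rw [hsub] at h2
    exact ⟨⟨Finset.mem_univ _, h1.1, h2.1⟩, ⟨Finset.mem_univ _, h1.2, h2.2⟩⟩
  · intro y hy
    rw [Finset.mem_product, Finset.mem_filter, Finset.mem_filter] at hy
    rw [Finset.mem_filter]
    refine ⟨Finset.mem_univ _, ?_, ?_⟩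
    · rw [hunit, e.apply_symm_apply]
      exact ⟨hy.1.2.1, hy.2.2.1⟩
    · rw [hunit, hsub, e.apply_symm_apply]
      exact ⟨hy.1.2.2, hy.2.2.2⟩
  · intro x _
    exact e.symm_apply_apply x
  · intro y _
    exact e.apply_symm_apply y

private theorem sum_per_twb (f : ℕ → ℕ) (p : ℕ) (hf : ∀ n, f (n + p) = f n) (m : ℕ) :
    ∑ n ∈ range (m * p), f n = m * ∑ n ∈ range p, f n := by
  have hf2 : ∀ k n, f (k * p + n) = f n := by
    intro k n
    induction k with
    | zero => simp
    | succ k ih =>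
      rw [show (k + 1) * p + n = (k * p + n) + p by ring, hf, ih]
  induction m with
  | zero => simp
  | succ m ih =>
    rw [show (m + 1) * p = m * p + p by ring, Finset.sum_range_add, ih]
    simp only [hf2]
    ring

private theorem nu_pp_twb (p k N : ℕ) (hp : p.Prime) (hk : 0 < k) :
    nu (p ^ k) N = p ^ (k - 1) * (if p ∣ N then p - 1 else p - 2) := by
  classical
  obtain ⟨j, rfl⟩ : ∃ j, k = j + 1 := ⟨k - 1, by omega⟩
  have hcop : ∀ n, Nat.Coprime n (p ^ (j + 1)) ↔ ¬ p ∣ n := by
    intro n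
    rw [Nat.coprime_pow_right_iff (by omega), Nat.coprime_comm]
    exact (Nat.Prime.coprime_iff_not_dvd hp)
  have hone : 1 ≤ p ^ (j + 1) := Nat.one_le_iff_ne_zero.mpr (pow_ne_zero _ hp.ne_zero)
  have hdv : ∀ n, p ∣ N + (p ^ (j + 1) - 1) * n ↔ n % p = N % p := by
    intro n
    rw [← ZMod.natCast_eq_zero_iff]
    push_cast [Nat.cast_sub hone]
    rw [ZMod.natCast_self, pow_succ, mul_zero, zero_sub]
    rw [show (N : ZMod p) + -1 * (n : ZMod p) = (N : ZMod p) - n by ring, sub_eq_zero, eq_comm]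
    rw [ZMod.natCast_eq_natCast_iff']
  set f : ℕ → ℕ := fun n => if n % p ≠ 0 ∧ n % p ≠ N % p then 1 else 0 with hf
  have h1 : nu (p ^ (j + 1)) N = ∑ n ∈ range (p ^ j * p), f n := by
    unfold nu
    rw [Finset.card_filter]
    apply Finset.sum_congr (by rw [pow_succ])
    intro n _
    simp only [hf]
    congr 1
    rw [hcop, hcop, hdv, Nat.dvd_iff_mod_eq_zero]
  have hper : ∀ n, f (n + p) = f n := by
    intro n
    simp only [hf, Nat.add_mod_right]
  rw [h1, sum_per_twb f p hper]
  congr 1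
  have h2 : ∑ n ∈ range p, f n = ((range p).filter (fun n => n ≠ 0 ∧ n ≠ N % p)).card := by
    rw [Finset.card_filter]
    apply Finset.sum_congr rfl
    intro n hn
    simp only [hf]
    rw [Nat.mod_eq_of_lt (Finset.mem_range.mp hn)]
  rw [h2]
  have h3 : (range p).filter (fun n => n ≠ 0 ∧ n ≠ N % p) = ((range p).erase 0).erase (N % p) := by
    ext n
    simp only [Finset.mem_filter, Finset.mem_erase]
    tauto
  rw [h3]
  have h0 : 0 ∈ range p := Finset.mem_range.mpr hp.pos
  split_ifs with h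
  · have h4 : N % p = 0 := Nat.mod_eq_zero_of_dvd h
    rw [h4, Finset.erase_idem, Finset.card_erase_of_mem h0, Finset.card_range]
  · have h4 : N % p ≠ 0 := fun h5 => h (Nat.dvd_of_mod_eq_zero h5)
    rw [Finset.card_erase_of_mem, Finset.card_erase_of_mem h0, Finset.card_range]
    · rfl
    · rw [Finset.mem_erase]
      exact ⟨h4, Finset.mem_range.mpr (Nat.mod_lt _ hp.pos)⟩

private theorem main_twb (R N : ℕ) (hR : 1 ≤ R) :
    (R : ℝ) / (Nat.totient R : ℝ) ^ 2 * nu R N = SPr R N := by
  induction R using Nat.recOnPosPrimePosCoprime with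
  | prime_pow p k hp hk =>
    rw [nu_pp_twb p k N hp hk, Nat.totient_prime_pow hp hk]
    unfold SPr
    rw [Nat.primeFactors_prime_pow hk.ne' hp, Finset.prod_singleton]
    unfold spf
    obtain ⟨j, rfl⟩ : ∃ j, k = j + 1 := ⟨k - 1, by omega⟩
    have hp2 : 2 ≤ p := hp.two_le
    have hp' : (0 : ℝ) < p := by exact_mod_cast hp.pos
    have hp1 : (0 : ℝ) < (p : ℝ) - 1 := by
      have : (2 : ℝ) ≤ p := by exact_mod_cast hp2
      linarith
    split_ifs with h
    · push_cast [Nat.cast_sub hp.one_le]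
      rw [pow_succ]
      field_simp
    · push_cast [Nat.cast_sub hp.one_le, Nat.cast_sub hp2]
      rw [pow_succ]
      field_simp
  | zero => omega
  | one =>
    have h1 : nu 1 N = 1 := by
      unfold nu
      simp
    rw [h1]
    simp [SPr]
  | coprime a b ha hb hab iha ihb =>
    have : NeZero a := ⟨by omega⟩
    have : NeZero b := ⟨by omega⟩
    have : NeZero (a * b) := ⟨mul_ne_zero (by omega) (by omega)⟩
    have h1 := iha ha.le
    have h2 := ihb hb.le
    have h3 : nu (a * b) N = nu a N * nu b N := by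
      rw [nu_eq_nz_twb, nu_eq_nz_twb, nu_eq_nz_twb, nz_mul_twb a b N hab]
    have h4 : SPr (a * b) N = SPr a N * SPr b N := by
      unfold SPr
      rw [Nat.Coprime.primeFactors_mul hab, Finset.prod_union hab.disjoint_primeFactors]
    rw [h3, h4, ← h1, ← h2, Nat.totient_mul hab]
    push_cast
    rw [mul_pow]
    ring

/-- TWB -/
theorem hTwb : StTwb := by
  refine ⟨?_, fun R N hR => main_twb R N hR⟩
  intro c₁ c₂ R N
  unfold tw nu
  refine (norm_sum_le _ _).trans ?_
  rw [Finset.cast_card]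
  apply Finset.sum_le_sum
  intro n _
  rw [norm_mul]
  have h1 : ‖c₁.ev n‖ ≤ 1 := DirichletCharacter.norm_le_one _ _
  have h2 : ‖c₂.ev (N + (R - 1) * n)‖ ≤ 1 := DirichletCharacter.norm_le_one _ _
  exact mul_le_one₀ h1 (norm_nonneg _) h2

end Pool.Agent.Helper37.MV
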